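import Pool.Agent.Helper47.SE.SE9

set_option autoImplicit false

open Cardinal Filter Topology

namespace Pool.Agent.Results.MP_2df815_an.OmegaClosedDensity

/-- A topological space is semi-Eberlein if it embeds homeomorphically into a cube `[-1,1]^Γ` so
that the points mapped into `c_0(Γ)` are dense. -/
def IsSemiEberlein (K : Type) [TopologicalSpace K] : Prop :=
  ∃ (Γ : Type) (h : K → Γ → ℝ), IsEmbedding h ∧ (∀ s γ, h s γ ∈ Set.Icc (-1 : ℝ) 1) ∧
    Dense {s : K | Tendsto (h s) cofinite (𝓝 0)}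

/-- The closed unit ball of the dual norm of the (semi)norm `N`, in the weak* topology. -/
def dualBall {X : Type} [NormedAddCommGroup X] [NormedSpace ℝ X] (N : Seminorm ℝ X) :
    Set (WeakDual ℝ X) :=
  {f | ∀ x : X, |f x| ≤ N x}

/-- `N` is an equivalent norm on `X`. -/
def IsEquivalentNorm {X : Type} [NormedAddCommGroup X] [NormedSpace ℝ X] (N : Seminorm ℝ X) :
    Prop :=
  ∃ c C : ℝ, 0 < c ∧ 0 < C ∧ ∀ x : X, c * ‖x‖ ≤ N x ∧ N x ≤ C * ‖x‖

/-- weakly compactly generated spaces -/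
def IsWCG (Y : Type) [NormedAddCommGroup Y] [NormedSpace ℝ Y] : Prop :=
  ∃ K : Set Y, IsCompact (toWeakSpace ℝ Y '' K) ∧ Dense (Submodule.span ℝ K : Set Y)

/-- the density character: least cardinality of a dense subset -/
noncomputable def dens (X : Type) [TopologicalSpace X] : Cardinal :=
  sInf {c : Cardinal | ∃ s : Set X, Dense s ∧ #s = c}

/-- separable spaces are weakly compactly generated -/
theorem wcg_of_separable {X : Type} [NormedAddCommGroup X] [NormedSpace ℝ X] {S : Set X}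
    (hS : Dense S) (hc : #S ≤ ℵ₀) : IsWCG X := by
  have hSc : S.Countable := Cardinal.le_aleph0_iff_set_countable.1 hc
  have hne : S.Nonempty := hS.nonempty
  obtain ⟨s, hs⟩ := hSc.exists_eq_range hne
  let w : ℕ → X := fun n => (1 / (((n : ℝ) + 1) * (1 + ‖s n‖))) • s n
  have hpos : ∀ n : ℕ, (0 : ℝ) < ((n : ℝ) + 1) * (1 + ‖s n‖) := fun n => by
    have := norm_nonneg (s n)
    positivity
  have hw : Tendsto w atTop (𝓝 0) := by
    rw [tendsto_zero_iff_norm_tendsto_zero]
    apply squeeze_zero (fun n => norm_nonneg _) (g := fun n : ℕ => 1 / ((n : ℝ) + 1)) ?_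
      tendsto_one_div_add_atTop_nhds_zero_nat
    intro n
    rw [norm_smul, Real.norm_eq_abs, abs_of_pos (by have := hpos n; positivity)]
    have h1 := norm_nonneg (s n)
    rw [div_mul_eq_mul_div, one_mul, div_le_div_iff₀ (hpos n) (by positivity)]
    have h2 : (0 : ℝ) ≤ (n : ℝ) + 1 := by positivity
    nlinarith
  have hcomp : IsCompact (insert (0 : X) (Set.range w)) := hw.isCompact_insert_range
  refine ⟨insert 0 (Set.range w), ?_, ?_⟩
  · have h3 := hcomp.image (toWeakSpaceCLM ℝ X).continuous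
    exact h3
  · refine hS.mono ?_
    intro y hy
    rw [hs] at hy
    obtain ⟨n, rfl⟩ := hy
    have h4 : s n = (((n : ℝ) + 1) * (1 + ‖s n‖)) • w n := by
      simp only [w]
      rw [smul_smul, mul_one_div_cancel (hpos n).ne', one_smul]
    rw [h4]
    exact Submodule.smul_mem _ _ (Submodule.subset_span (Or.inr ⟨n, rfl⟩))

/-- ZFC theorem: let `X` be a real Banach space whose density `d` is countable or satisfies
`κ ^ ℵ₀ ≤ d` for all `κ < d`. If for every equivalent norm the weak* dual ball is semi-Eberlein,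
then `X` is isomorphic to a subspace of a WCG Banach space. -/
theorem result :
    ∀ (X : Type) [NormedAddCommGroup X] [NormedSpace ℝ X] [CompleteSpace X],
      (dens X ≤ ℵ₀ ∨ ∀ κ < dens X, κ ^ ℵ₀ ≤ dens X) →
      (∀ N : Seminorm ℝ X, IsEquivalentNorm N → IsSemiEberlein (dualBall N)) →
      ∃ (Y : Type) (_ : NormedAddCommGroup Y) (_ : NormedSpace ℝ Y),
        CompleteSpace Y ∧ IsWCG Y ∧
          ∃ (T : X →L[ℝ] Y) (c : ℝ), 0 < c ∧ ∀ x : X, c * ‖x‖ ≤ ‖T x‖ := by
  intro X _ _ _ hd hall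
  have hne : {c : Cardinal | ∃ s : Set X, Dense s ∧ #s = c}.Nonempty :=
    ⟨#(Set.univ : Set X), Set.univ, dense_univ, rfl⟩
  obtain ⟨S, hS, hSc⟩ : ∃ s : Set X, Dense s ∧ #s = dens X := csInf_mem hne
  have hmin : ∀ s : Set X, Dense s → #S ≤ #s := by
    intro s hs
    rw [hSc]
    exact csInf_le' ⟨s, hs, rfl⟩
  by_cases hω : #S ≤ ℵ₀
  · exact ⟨X, inferInstance, inferInstance, inferInstance, wcg_of_separable hS hω,
      ContinuousLinearMap.id ℝ X, 1, one_pos, fun x => by simp⟩
  · have hω' : ℵ₀ < #S := not_le.1 hω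
    have hC : ∀ κ < #S, κ ^ ℵ₀ ≤ #S := by
      rcases hd with hd | hd
      · rw [hSc] at hω
        exact absurd hd hω
      · rw [hSc]
        exact hd
    have h1 : ∀ N : Seminorm ℝ X, Pool.Agent.Helper47.SE.EquivNorm N →
        Pool.Agent.Helper47.SE.SemiEberlein (Pool.Agent.Helper47.SE.BN N) := fun N hN => hall N hN
    obtain ⟨W, hW1, hW2⟩ := Pool.Agent.Helper47.SE.final h1 hS hmin hω' hC
    exact ⟨C(Pool.Agent.Helper47.SE.UB X, ℝ), inferInstance, inferInstance, inferInstance,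
      ⟨W, hW1, hW2⟩, Pool.Agent.Helper47.SE.evalC X, 1, one_pos, fun x => by
        rw [one_mul]; exact Pool.Agent.Helper47.SE.le_norm_evalC x⟩

end Pool.Agent.Results.MP_2df815_an.OmegaClosedDensity
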